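import Pool.Agent.L7h71.GC.Stm

set_option autoImplicit false

/-! [MEC] of project GC (helper71): measurability. -/

namespace Pool.Agent.L7h6.GC

open Set Function MeasureTheory FirstOrder FirstOrder.Language
open Pool.Agent.H533R2.VO (RS)
open Pool.Agent.L7h71.GB (pt)
open Pool.Agent.W889.FO.St0 (RF LF gr W D)
open Pool.Agent.R617.VT (ar dc Md)
open Pool.Agent.L7h71.GC

variable {L : FirstOrder.Language.{0, 0}}

/-- the formula `t = x 1`, the variables of `t` renamed -/
def eqf (t : L.Term ℕ) : L.Formula ℕ := (t.relabel fun i => 2 * i).equal (Term.var 1)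

theorem eqf_qf (t : L.Term ℕ) : (eqf t).IsQF := by
  unfold eqf Term.equal
  exact (BoundedFormula.IsAtomic.equal _ _).isQF

/-- the assignment used for `eqf` -/
def asg (v : ℕ → ℕ) (p : ℕ) (i : ℕ) : ℕ := if i % 2 = 0 then v (i / 2) else p

theorem fr_eqf (S : L.Structure ℕ) (v : ℕ → ℕ) (p : ℕ) (t : L.Term ℕ) :
    fr S (asg v p) (eqf t) ↔ tr S v t = p := by
  unfold fr tr eqf
  let _ := S
  rw [Formula.realize_equal, Term.realize_relabel]
  have h1 : asg v p ∘ (fun i => 2 * i) = v := by
    funext i
    simp [asg]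
  rw [h1]
  have h2 : (Term.var 1 : L.Term ℕ).realize (asg v p) = p := by simp [asg]
  rw [h2]

theorem fr_true (S : L.Structure ℕ) (v : ℕ → ℕ) :
    fr S v ((Term.var 0 : L.Term ℕ).equal (Term.var 0)) := by
  unfold fr
  let _ := S
  rw [Formula.realize_equal]

section

variable {e : (Σ n, (LF L).Relations n) → ℕ} (he : Injective e)

/-- The predicate `P` is measurable on the set of codes of structures. -/
def MW (P : L.Structure ℕ → Prop) : Prop :=
  Measurable fun y : RS (ar e) => W (dc he y) ∧ P (D (dc he y))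

variable {he}

theorem mw_w (h : S_MEB) (hc : Countable L.Symbols) :
    Measurable fun y : RS (ar e) => W (dc he y) := by
  have h1 := h L hc e he ((Term.var 0 : L.Term ℕ).equal (Term.var 0))
    (by unfold Term.equal; exact (BoundedFormula.IsAtomic.equal _ _).isQF) fun _ => 0
  have h2 : {y : RS (ar e) | W (dc he y) ∧ fr (D (dc he y)) (fun _ => 0)
      ((Term.var 0 : L.Term ℕ).equal (Term.var 0))} = {y | W (dc he y)} := by
    ext y
    exact ⟨fun h => h.1, fun h => ⟨h, fr_true _ _⟩⟩
  rw [h2] at h1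
  exact measurableSet_setOfPred.1 h1

theorem MW.not {P : L.Structure ℕ → Prop} (hw : Measurable fun y : RS (ar e) => W (dc he y))
    (h : MW he P) : MW he fun S => ¬ P S := by
  have h1 : Measurable fun y : RS (ar e) => W (dc he y) ∧ ¬ (W (dc he y) ∧ P (D (dc he y))) :=
    hw.and (Measurable.not h)
  refine (iff_of_eq (congrArg Measurable (funext fun y => propext ?_))).1 h1
  tauto

theorem MW.exi {ι : Type} [Countable ι] {P : ι → L.Structure ℕ → Prop}
    (h : ∀ i, MW he (P i)) : MW he fun S => ∃ i, P i S := by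
  have h1 : Measurable fun y : RS (ar e) => ∃ i, W (dc he y) ∧ P i (D (dc he y)) :=
    Measurable.exists h
  refine (iff_of_eq (congrArg Measurable (funext fun y => propext ?_))).1 h1
  exact ⟨fun ⟨i, h1, h2⟩ => ⟨h1, i, h2⟩, fun ⟨h1, i, h2⟩ => ⟨i, h1, h2⟩⟩

theorem MW.fa {ι : Type} [Countable ι] {P : ι → L.Structure ℕ → Prop}
    (hw : Measurable fun y : RS (ar e) => W (dc he y))
    (h : ∀ i, MW he (P i)) : MW he fun S => ∀ i, P i S := by
  have h1 : Measurable fun y : RS (ar e) => W (dc he y) ∧ ∀ i, W (dc he y) ∧ P i (D (dc he y)) :=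
    hw.and (Measurable.forall h)
  refine (iff_of_eq (congrArg Measurable (funext fun y => propext ?_))).1 h1
  exact ⟨fun ⟨h1, h2⟩ => ⟨h1, fun i => (h2 i).2⟩, fun ⟨h1, h2⟩ => ⟨h1, fun i => ⟨h1, h2 i⟩⟩⟩

theorem MW.im {P Q : L.Structure ℕ → Prop}
    (hw : Measurable fun y : RS (ar e) => W (dc he y))
    (hP : MW he P) (hQ : MW he Q) : MW he fun S => P S → Q S := by
  have h1 : Measurable fun y : RS (ar e) =>
      W (dc he y) ∧ (W (dc he y) ∧ P (D (dc he y)) → W (dc he y) ∧ Q (D (dc he y))) :=
    hw.and (Measurable.imp hP hQ)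
  refine (iff_of_eq (congrArg Measurable (funext fun y => propext ?_))).1 h1
  tauto

theorem mw_gen (h : S_MEB) (hc : Countable L.Symbols) (v : ℕ → ℕ) (p : ℕ) :
    MW he fun S : L.Structure ℕ => Gen S v p := by
  unfold Gen
  refine MW.exi fun t => ?_
  have h1 := measurableSet_setOfPred.1 (h L hc e he (eqf t) (eqf_qf t) (asg v p))
  refine (iff_of_eq (congrArg Measurable (funext fun y => propext ?_))).1 h1
  rw [fr_eqf]

theorem mw_top (h : S_MEB) (hc : Countable L.Symbols) (y : ℕ) :
    MW he fun S : L.Structure ℕ => TopP S y := by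
  unfold TopP G1
  exact MW.fa (mw_w h hc) fun z => MW.im (mw_w h hc) (mw_gen h hc _ _) (mw_gen h hc _ _)

theorem mw_fgs (h : S_MEB) (hc : Countable L.Symbols) :
    MW he fun S : L.Structure ℕ => FGs S := by
  unfold FGs
  refine MW.exi fun l => ?_
  by_cases hl : l = []
  · have h1 : Measurable fun _ : RS (ar e) => False := measurable_const
    refine (iff_of_eq (congrArg Measurable (funext fun y => propext ?_))).1 h1
    simp [hl]
  · have h1 : MW he fun S : L.Structure ℕ => ∀ p, Gen S (pt l) p :=
      MW.fa (mw_w h hc) fun p => mw_gen h hc _ _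
    refine (iff_of_eq (congrArg Measurable (funext fun y => propext ?_))).1 h1
    simp [hl]

end

theorem s_MEC (h : S_MEB) : S_MEC := by
  intro L hc E hE e he
  have hw : Measurable fun y : RS (ar e) => W (dc he y) := mw_w h hc
  refine ⟨fun v p => measurableSet_setOfPred.2 (mw_gen h hc v p),
    measurableSet_setOfPred.2 (mw_fgs h hc), ?_, ?_⟩
  · have h1 : Measurable fun z : RS (ar e) × (ℕ → ℕ) => Injective z.2 := by
      unfold Injective
      refine Measurable.forall fun i => Measurable.forall fun j => ?_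
      have h3 : Measurable fun p : ℕ × ℕ => (p.1 = p.2 → i = j) := measurable_of_countable _
      have h7 : Measurable fun z : RS (ar e) × (ℕ → ℕ) => ((z.2 i, z.2 j) : ℕ × ℕ) :=
        ((measurable_pi_apply i).comp measurable_snd).prodMk
          ((measurable_pi_apply j).comp measurable_snd)
      exact h3.comp h7
    have h2 : Measurable fun z : RS (ar e) × (ℕ → ℕ) => ∀ y,
        (W (dc he z.1) ∧ TopP (D (dc he z.1)) y) ↔ ∃ i, z.2 i = y := by
      refine Measurable.forall fun y => ?_
      have h3 : Measurable fun z : RS (ar e) × (ℕ → ℕ) =>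
          W (dc he z.1) ∧ TopP (D (dc he z.1)) y := (mw_top (he := he) h hc y).comp measurable_fst
      have h4 : Measurable fun z : RS (ar e) × (ℕ → ℕ) => ∃ i, z.2 i = y :=
        Measurable.exists fun i => (measurable_of_countable fun n : ℕ => n = y).comp
          ((measurable_pi_apply i).comp measurable_snd)
      exact h3.iff h4
    have h3 : {z : RS (ar e) × (ℕ → ℕ) | W (dc he z.1) ∧ Pres (D (dc he z.1)) z.2} =
        {z | W (dc he z.1) ∧ Injective z.2 ∧ ∀ y,
          (W (dc he z.1) ∧ TopP (D (dc he z.1)) y) ↔ ∃ i, z.2 i = y} := by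
      ext z
      unfold Pres
      constructor
      · rintro ⟨h1, h2, h3⟩
        exact ⟨h1, h2, fun y => ⟨fun h4 => (h3 y).1 h4.2, fun h4 => ⟨h1, (h3 y).2 h4⟩⟩⟩
      · rintro ⟨h1, h2, h3⟩
        exact ⟨h1, h2, fun y => ⟨fun h4 => (h3 y).1 ⟨h1, h4⟩, fun h4 => ((h3 y).2 h4).2⟩⟩
    rw [h3]
    exact measurableSet_setOfPred.2 ((hw.comp measurable_fst).and (h1.and h2))
  · refine measurable_pi_lambda _ fun m => measurable_pi_lambda _ fun x =>
      measurable_pi_lambda _ fun k => ?_
    classical
    have h3 : Measurable fun p : RS (ar e) × (Fin (m + 1) → ℕ) =>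
        decide (W (dc he p.1) ∧ fr (D (dc he p.1)) (tu p.2) (E k)) := by
      refine measurable_from_prod_countable_left fun n => ?_
      refine measurable_to_bool ?_
      have h4 := h L hc e he (E k) (hE.1 k) (tu n)
      refine (iff_of_eq (congrArg MeasurableSet (Set.ext fun y => ?_))).1 h4
      simp
    have h5 : Measurable fun z : RS (ar e) × (ℕ → ℕ) => fun j : Fin (m + 1) => z.2 (x j) :=
      measurable_pi_lambda _ fun j => (measurable_pi_apply (x j)).comp measurable_snd
    have h6 := h3.comp (measurable_fst.prodMk h5)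
    refine (iff_of_eq (congrArg Measurable (funext fun z => ?_))).1 h6
    unfold cd
    exact decide_eq_decide.2 Iff.rfl

end Pool.Agent.L7h6.GC
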